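import Pool.Agent.H71.FX.Targets3
import Pool.Agent.H69.Sp.Per

/-! MP_64fb07_lc, PI: eventually periodic sets are spectra. -/

set_option autoImplicit false

namespace Pool.Agent.H89.FX

open Pool.Agent.H71.FX Pool.Agent.H71.PF Pool.Agent.H69.Sp Pool.Agent.H8.PL Pool.Agent.H8.JS

theorem pf_PI : T_PI := by
  rintro S ⟨p, N, hp, h⟩ h0
  have h1 : UltPer S := ⟨N, p, hp, fun n hn => h n hn⟩
  have h2 : UltPer Sᶜ := ⟨N, p, hp, fun n hn => not_congr (h n hn)⟩
  constructor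
  · have e1 : {n | 0 < n ∧ n ∈ S} = S := by
      ext n
      exact ⟨fun hn => hn.2, fun hn => ⟨h0 n hn, hn⟩⟩
    have h3 := h1.isSpectrum
    rwa [e1] at h3
  · exact h2.isSpectrum

end Pool.Agent.H89.FX
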