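import Pool.Agent.H71.FX.Targets

/-! MP_64fb07_lc, UA: all columns end above. -/

set_option autoImplicit false

namespace Pool.Agent.H89.FX

open Pool.Agent.H71.FX Pool.Agent.H71.PF Pool.Agent.H8.PL

theorem pf_UA (ue : T_UE) : T_UA := by
  intro α Q m hfin hRu hG4 x
  by_contra hcon
  push Not at hcon
  have hL : ∀ i, m.L (m.u^[i] x) = m.u^[i] (m.L x) := by
    intro i
    induction i with
    | zero => rfl
    | succ i ih =>
      rw [Function.iterate_succ_apply', Function.iterate_succ_apply', (hG4 _).2.2 (hcon i), ih]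
  obtain ⟨i, hi⟩ := ue α Q m hfin hRu (m.L x) (hG4 x).1
  rw [← hL i, (hG4 _).2.1] at hi
  exact hcon i hi

end Pool.Agent.H89.FX
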