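import Pool.Agent.H71.FX.Targets2

/-! MP_64fb07_lc, VW: what one element sees. -/

set_option autoImplicit false

namespace Pool.Agent.H89.FX

open Pool.Agent.H71.FX Pool.Agent.H71.PF

/-- the term is an iterate of the function at a variable, of depth at most `D` -/
def Good (K D : ℕ) (s : Tm) : Prop := ∃ i < K, ∃ k ≤ D, ∀ (α : Type) (m : Sk α) (x : α)
  (v : ℕ → α), s.val (m.F x) v = m.f^[k] (v i)

theorem Good.mono {K D D' : ℕ} {s : Tm} (h : Good K D s) (hD : D ≤ D') : Good K D' s := by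
  obtain ⟨i, hi, k, hk, h⟩ := h
  exact ⟨i, hi, k, hk.trans hD, h⟩

theorem good_tm (i0 K : ℕ) (s : Tm) : s.Vars K → s.Voc (UF i0) → ∃ D, Good K D s := by
  induction s with
  | var x => exact fun h _ => ⟨0, x, h, 0, le_rfl, fun α m y v => rfl⟩
  | @app i k ts ih =>
    intro h1 h2
    obtain ⟨⟨rfl, rfl⟩, h3⟩ := h2
    obtain ⟨D, j, hj, k, hk, h⟩ := ih 0 (h1 0) (h3 0)
    refine ⟨D + 1, j, hj, k + 1, Nat.succ_le_succ hk, fun α m x v => ?_⟩
    rw [Function.iterate_succ_apply', ← h α m x v]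
    simp [Tm.val, Sk.F]

theorem good_list (K : ℕ) (ts : List Tm) (h : ∀ t ∈ ts, ∃ D, Good K D t) :
    ∃ D, ∀ t ∈ ts, Good K D t := by
  induction ts with
  | nil => exact ⟨0, fun t ht => absurd ht (by simp)⟩
  | cons t ts ih =>
    obtain ⟨D, hD⟩ := ih fun s hs => h s (List.mem_cons_of_mem _ hs)
    obtain ⟨D', hD'⟩ := h t (List.mem_cons_self ..)
    refine ⟨max D D', fun s hs => ?_⟩
    rcases List.mem_cons.1 hs with rfl | hs
    · exact hD'.mono (le_max_right _ _)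
    · exact (hD s hs).mono (le_max_left _ _)

/-- the values are in the set of the values, and are mapped to each other -/
theorem good_see {K D r J a : ℕ} {α β : Type} {m : Sk α} {m' : Sk β} {x : α} {x' : β} {h : α → β}
    (hh : ∀ i < K, ∀ k ≤ D, m'.f^[k] (m'.w x' i) = h (m.f^[k] (m.w x i))) {s : Tm}
    (hs : Good K D s) : s.val (m'.F x') (m'.w x') = h (s.val (m.F x) (m.w x)) ∧
      s.val (m.F x) (m.w x) ∈ m.T ⟨a, K, D, r, J⟩ x := by
  obtain ⟨i, hi, k, hk, h1⟩ := hs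
  rw [h1, h1]
  exact ⟨hh i hi k hk, i, hi, k, hk, rfl⟩

theorem vw (i0 K r : ℕ) (φ : QF) : φ.Vars K → φ.Voc (UF i0) r → ∃ D₀ J₀ : ℕ, ∀ D J : ℕ,
    D₀ ≤ D → J₀ ≤ J → ∀ (a : ℕ) (α β : Type) (m : Sk α) (m' : Sk β) (x : α) (x' : β),
    See ⟨a, K, D, r, J⟩ m m' x x' →
    (φ.Sat (m.F x) m.R (m.w x) ↔ φ.Sat (m'.F x') m'.R (m'.w x')) := by
  induction φ with
  | rel i ts =>
    intro hV hC
    obtain ⟨hl1, hlr, hC⟩ := hC
    obtain ⟨D₀, hD₀⟩ := good_list K ts fun t ht => good_tm i0 K t (hV t ht) (hC t ht)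
    refine ⟨D₀, i + 1, fun D J hD hJ a α β m m' x x' hS => ?_⟩
    obtain ⟨h, h1, h2, h3⟩ := hS
    have hg : ∀ t ∈ ts, t.val (m'.F x') (m'.w x') = h (t.val (m.F x) (m.w x)) ∧
        t.val (m.F x) (m.w x) ∈ m.T ⟨a, K, D, r, J⟩ x := fun t ht =>
      good_see (r := r) (J := J) (a := a) h1 ((hD₀ t ht).mono hD)
    have e1 : ts.map (Tm.val (m'.F x') (m'.w x')) = (ts.map (Tm.val (m.F x) (m.w x))).map h := by
      rw [List.map_map]
      exact List.map_congr_left fun t ht => (hg t ht).1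
    change m.R i (ts.map (Tm.val (m.F x) (m.w x))) ↔
      m'.R i (ts.map (Tm.val (m'.F x') (m'.w x')))
    rw [e1]
    refine (h3 i (ts.map (Tm.val (m.F x) (m.w x))) hJ ?_ ?_ ?_).symm
    · rw [List.length_map]
      exact hl1
    · rw [List.length_map]
      exact hlr
    · intro z hz
      obtain ⟨t, ht, rfl⟩ := List.mem_map.1 hz
      exact (hg t ht).2
  | eq s t =>
    intro hV hC
    obtain ⟨D₁, h₁⟩ := good_tm i0 K s hV.1 hC.1
    obtain ⟨D₂, h₂⟩ := good_tm i0 K t hV.2 hC.2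
    refine ⟨max D₁ D₂, 0, fun D J hD hJ a α β m m' x x' hS => ?_⟩
    obtain ⟨h, h1, h2, h3⟩ := hS
    have g1 := good_see (r := r) (J := J) (a := a) h1 (h₁.mono ((le_max_left _ _).trans hD))
    have g2 := good_see (r := r) (J := J) (a := a) h1 (h₂.mono ((le_max_right _ _).trans hD))
    change s.val (m.F x) (m.w x) = t.val (m.F x) (m.w x) ↔
      s.val (m'.F x') (m'.w x') = t.val (m'.F x') (m'.w x')
    rw [g1.1, g2.1]
    exact (h2.eq_iff g1.2 g2.2).symm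
  | neg φ ih =>
    intro hV hC
    obtain ⟨D₀, J₀, h⟩ := ih hV hC
    exact ⟨D₀, J₀, fun D J hD hJ a α β m m' x x' hS =>
      not_congr (h D J hD hJ a α β m m' x x' hS)⟩
  | and φ ψ ih1 ih2 =>
    intro hV hC
    obtain ⟨D₁, J₁, h1⟩ := ih1 hV.1 hC.1
    obtain ⟨D₂, J₂, h2⟩ := ih2 hV.2 hC.2
    exact ⟨max D₁ D₂, max J₁ J₂, fun D J hD hJ a α β m m' x x' hS =>
      and_congr (h1 D J ((le_max_left _ _).trans hD) ((le_max_left _ _).trans hJ) a α β m m' x x' hS)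
        (h2 D J ((le_max_right _ _).trans hD) ((le_max_right _ _).trans hJ) a α β m m' x x' hS)⟩

theorem pf_VW : T_VW := by
  intro i0 K r φ hV hC
  obtain ⟨D, J, h⟩ := vw i0 K r φ hV hC
  exact ⟨D, J, fun a α β m m' x x' hS => h D J le_rfl le_rfl a α β m m' x x' hS⟩

end Pool.Agent.H89.FX
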